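import Mathlib
import Pool.Graph.R_seed8.R773.HN.Defs

/-!
# Hölder limits of Hamiltonian diffeomorphisms: definitions
-/

set_option autoImplicit false

open Set Filter Topology MeasureTheory
open Pool.Agent.Y453.HB (E Q XH)
open Pool.Agent.R773.HN (Homeos)

namespace Pool.Agent.H822.HC

/-- the distance of two points -/
noncomputable def dst {n : ℕ} (x y : E n) : ℝ := ‖x - y‖

/-- `φ` is the identity off `K` -/
def SuppIn {n : ℕ} (K : Set (E n)) (φ : Homeos n) : Prop := ∀ x, x ∉ K → φ.map x = x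

/-- `K` is a compact subset of the open unit ball -/
def CptInBall {n : ℕ} (K : Set (E n)) : Prop := IsCompact K ∧ ∀ x ∈ K, Q x < 1

/-- `u` is locally `α`-Hölder with constant `A` -/
def Hoelder {n : ℕ} (α A : ℝ) (u : Homeos n) : Prop :=
  ∀ x y, dst x y ≤ 1 → dst (u.map x) (u.map y) ≤ A * dst x y ^ α

/-- `u k` converges uniformly to `φ` -/
def UnifLim {n : ℕ} (u : ℕ → Homeos n) (φ : Homeos n) : Prop :=
  ∀ ε : ℝ, 0 < ε → ∃ N : ℕ, ∀ k, N ≤ k → ∀ x, dst ((u k).map x) (φ.map x) ≤ ε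

/-- `ψ` is the flow of the smooth time dependent Hamiltonian `H` -/
def IsFlow {n : ℕ} (H : ℝ → E n → ℝ) (ψ : ℝ → E n → E n) : Prop :=
  ContDiff ℝ ((⊤ : ℕ∞) : WithTop ℕ∞) (Function.uncurry H) ∧ (∀ x, ψ 0 x = x) ∧
    ∀ t x, HasDerivAt (fun s => ψ s x) (XH (H t) (ψ t x)) t

/-- `u` is generated by `H`: it is the time one map of the flow of the smooth time dependent
Hamiltonian `H`, which vanishes off a compact subset of the open unit ball -/
def Generates {n : ℕ} (H : ℝ → E n → ℝ) (u : Homeos n) : Prop :=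
  (∃ K, CptInBall K ∧ ∀ t x, x ∉ K → H t x = 0) ∧ ∃ ψ, IsFlow H ψ ∧ ∀ x, u.map x = ψ 1 x

/-- `c` is a value of the Calabi invariant of `u`: the integral over `[0,1] × B` of some
Hamiltonian which generates `u` -/
def Calabi {n : ℕ} (u : Homeos n) (c : ℝ) : Prop :=
  ∃ H : ℝ → E n → ℝ, Generates H u ∧ c = ∫ t in (0 : ℝ)..1, ∫ x, H t x

/-- `φ` is the uniform limit of the Hamiltonian diffeomorphisms `u k`, all supported, as `φ`, in
the compact subset `K` of the open unit ball; for each `α < 1` the `α`-Hölder constants of the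
`u k` and of their inverses are bounded -/
structure HApprox {n : ℕ} (φ : Homeos n) (K : Set (E n)) (u : ℕ → Homeos n) : Prop where
  cpt : CptInBall K
  supp : SuppIn K φ
  usupp : ∀ k, SuppIn K (u k)
  ham : ∀ k, ∃ c, Calabi (u k) c
  conv : UnifLim u φ
  hol : ∀ α : ℝ, 0 < α → α < 1 → ∃ A : ℝ, ∀ k, Hoelder α A (u k) ∧ Hoelder α A (u k)⁻¹

end Pool.Agent.H822.HC
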