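import Mathlib
import Pool.Agent.H822.CalGrp2
import Pool.Agent.H822.HC.Defs

set_option autoImplicit false

open scoped ContDiff
open Set Filter Topology Function MeasureTheory
open Pool.Agent.H822.CalEst Pool.Agent.H822.CalGrp Pool.Agent.H822.Cal
open Pool.Agent.Y453.HB (E Q XH IsHam HamBar)
open Pool.Agent.R773.HN (Homeos HamHomeo IsHamDiffeo)

namespace Pool.Agent.H822.HC

variable {n : ℕ}

theorem generates_iff (H : ℝ → E n → ℝ) (u : Homeos n) : Generates H u ↔ IsGen u.homeo H := by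
  constructor
  · rintro ⟨⟨K, ⟨h1, h2⟩, h3⟩, ψ, ⟨h4, h5, h6⟩, h7⟩
    exact ⟨h4, ⟨K, h1, h2, h3⟩, ψ, h5, h6, h7⟩
  · rintro ⟨h4, ⟨K, h1, h2, h3⟩, ψ, h5, h6, h7⟩
    exact ⟨⟨K, ⟨h1, h2⟩, h3⟩, ψ, ⟨h4, h5, h6⟩, h7⟩

theorem calabi_iff (u : Homeos n) (c : ℝ) : Calabi u c ↔ IsCalabi u.homeo c := by
  constructor
  · rintro ⟨H, h1, h2⟩
    exact ⟨H, (generates_iff H u).1 h1, h2⟩
  · rintro ⟨H, h1, h2⟩
    exact ⟨H, (generates_iff H u).2 h1, h2⟩

theorem ham_iff (u : Homeos n) : (∃ c, Calabi u c) ↔ IsHam u.homeo := by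
  constructor
  · rintro ⟨c, H, h1, -⟩
    exact ⟨H, (generates_iff H u).1 h1⟩
  · rintro ⟨H, hH⟩
    exact ⟨_, H, (generates_iff H u).2 hH, rfl⟩

theorem unif_iff (u : ℕ → Homeos n) (φ : Homeos n) : UnifLim u φ ↔
    TendstoUniformly (fun (k : ℕ) (x : E n) => (u k).homeo x) (fun x => φ.homeo x) atTop := by
  rw [Metric.tendstoUniformly_iff]
  constructor
  · intro h ε hε
    obtain ⟨N, hN⟩ := h (ε / 2) (half_pos hε)
    refine eventually_atTop.2 ⟨N, fun k hk x => ?_⟩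
    have h1 := hN k hk x
    rw [dist_comm, dist_eq_norm]
    exact lt_of_le_of_lt h1 (half_lt_self hε)
  · intro h ε hε
    obtain ⟨N, hN⟩ := eventually_atTop.1 (h ε hε)
    refine ⟨N, fun k hk x => ?_⟩
    have h1 := hN k hk x
    rw [dist_comm, dist_eq_norm] at h1
    exact h1.le

theorem happrox_iff (φ : Homeos n) (K : Set (E n)) (u : ℕ → Homeos n) :
    HApprox φ K u ↔ Approx φ.homeo K (fun k => (u k).homeo) := by
  constructor
  · intro h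
    exact ⟨h.cpt.1, h.cpt.2, h.supp, h.usupp, fun k => (ham_iff _).1 (h.ham k),
      (unif_iff _ _).1 h.conv, h.hol⟩
  · intro h
    exact ⟨⟨h.cpt, h.sub⟩, h.fix, h.ufix, fun k => (ham_iff _).2 (h.ham k),
      (unif_iff _ _).2 h.conv, h.hol⟩

theorem mem_iff (φ : Homeos n) : (∃ K u, HApprox φ K u) ↔ φ.homeo ∈ CalGrp.HolHam n := by
  constructor
  · rintro ⟨K, u, h⟩
    exact ⟨K, _, (happrox_iff φ K u).1 h⟩
  · rintro ⟨K, u, h⟩
    exact ⟨K, u, (happrox_iff φ K u).2 h⟩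

theorem mul_mem (φ ψ : Homeos n) (h : ∃ K u, HApprox φ K u) (h' : ∃ K u, HApprox ψ K u) :
    ∃ K u, HApprox (φ * ψ) K u :=
  (mem_iff _).2 ((CalGrp.HolHam n).mul_mem ((mem_iff _).1 h) ((mem_iff _).1 h'))

theorem one_mem : ∃ K u, HApprox (1 : Homeos n) K u := (mem_iff _).2 (CalGrp.HolHam n).one_mem

theorem inv_mem (φ : Homeos n) (h : ∃ K u, HApprox φ K u) : ∃ K u, HApprox φ⁻¹ K u :=
  (mem_iff _).2 ((CalGrp.HolHam n).inv_mem ((mem_iff _).1 h))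

end Pool.Agent.H822.HC
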