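import Mathlib
import Pool.Agent.H822.HC.Bridge

set_option autoImplicit false

open Pool.Agent.R773.HN (Homeos)

namespace Pool.Agent.H822.HC

/-- The group of the homeomorphisms of the unit ball which are uniform limits of Hamiltonian
diffeomorphisms with support in a common compact subset, whose `α`-Hölder constants, and those of
their inverses, are bounded, for all `α < 1`. -/
def HolHam (n : ℕ) : Subgroup (Homeos n) where
  carrier := {φ | ∃ K u, HApprox φ K u}
  mul_mem' := mul_mem _ _
  one_mem' := one_mem
  inv_mem' := inv_mem _

/-- `HolHam n` as a type -/
def Gp (n : ℕ) : Type := HolHam n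

noncomputable instance (n : ℕ) : Group (Gp n) := inferInstanceAs (Group (HolHam n))

/-- the underlying homeomorphism -/
def Gp.homeo {n : ℕ} (φ : Gp n) : Homeos n := φ.1

end Pool.Agent.H822.HC
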